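import Pool.Agent.Y631.WcB

set_option autoImplicit false

/-!
# Word circuits: the two sides, in terms of the wires only
-/

open Finset

namespace Pool.Agent.Q230.RW

open Pool.Agent.Y631.Wc

variable {ι X Z : Type} (C : WCirc ι X Z)

/-- **The two sides.** -/
theorem sides_wires [DecidableEq ι] {κ θ M R w r' : ℕ} (hκ : C.FanIn κ) (hθ : C.TreewidthLE θ)
    (hR : C.reads ≤ R) (X1 X2 : Finset ι) (hX1 : X1.card = M) (hX2 : X2.card = M)
    (hr' : 4 * R ≤ (r' + 1) * M) (hw : 8 * (w * R) ≤ M * M) (hM : 1 ≤ M) :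
    ∃ s : ℕ, w * s ≤ 8 * R + w ∧ (M < 4 * (κ * (s * (2 * (θ + 1)))) ∨
      ∃ (B : Finset (Fin C.size)) (A E : Finset ι) (part : Fin C.size → ℕ) (J : ℕ → Prop),
        A ⊆ X1 ∧ E ⊆ X2 ∧
        M ≤ 4 ^ (r' + 1) * A.card ∧ M ≤ 4 ^ (r' + 1) * E.card ∧
        (C.plus B).card ≤ (κ + 1) * (s * (2 * (θ + 1))) ∧
        (∀ h g, C.Joined h g → h ∉ B → g ∉ B → part h = part g) ∧
        (∀ g ∈ B, ∀ i, C.Reads g i → i ∉ (A : Set ι) ∧ i ∉ (E : Set ι)) ∧
        (∀ g, g ∉ B → J (part g) → ∀ i, C.Reads g i → i ∉ (E : Set ι)) ∧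
        ∀ g, g ∉ B → ¬ J (part g) → ∀ i, C.Reads g i → i ∉ (A : Set ι)) := by
  classical
  obtain ⟨s, B, part, h1, h2, h3, h4, h5⟩ := C.skel.exists_parts θ (C.tw_skel hθ) C.vars w
  have h1' : w * s ≤ 8 * R + w := h1.trans (by
    have : ∑ g, C.vars g ≤ R := hR
    exact Nat.add_le_add_right (Nat.mul_le_mul_left _ this) _)
  refine ⟨s, h1', ?_⟩
  by_cases hbig : M < 4 * (κ * (s * (2 * (θ + 1))))
  · exact Or.inl hbig
  right
  push Not at hbig
  have hBM : 4 * (κ * B.card) ≤ M :=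
    le_trans (Nat.mul_le_mul_left _ (Nat.mul_le_mul_left _ h2)) hbig
  obtain ⟨T, hT⟩ : ∃ T : ι → Finset (Fin s), T = C.parts B part s := ⟨_, rfl⟩
  have hTm : ∀ i j, j ∈ T i ↔ ∃ g, g ∉ B ∧ part g = j.1 ∧ C.Reads g i := by
    intro i j
    rw [hT]
    exact C.mem_parts B part s i j
  have hTs : ∀ Y : Finset ι, ∑ i ∈ Y, (T i).card ≤ R := by
    intro Y
    rw [hT]
    exact (C.sum_parts B part s Y).trans hR
  -- good variables
  obtain ⟨G, hG⟩ : ∃ G : Finset ι → Finset ι, ∀ Y, G Y =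
    Y.filter (fun i => (¬ ∃ g ∈ B, C.Reads g i) ∧ (T i).card ≤ r') := ⟨_, fun _ => rfl⟩
  have hGc : ∀ Y : Finset ι, Y.card = M → M ≤ 2 * (G Y).card := by
    intro Y hY
    have h6 : Y ⊆ G Y ∪ ((Y.filter fun i => ∃ g ∈ B, C.Reads g i) ∪
        (Y.filter fun i => r' < (T i).card)) := by
      intro i hi
      rw [mem_union, mem_union, hG, mem_filter, mem_filter, mem_filter]
      by_cases h7 : ∃ g ∈ B, C.Reads g i
      · exact Or.inr (Or.inl ⟨hi, h7⟩)
      · by_cases h8 : (T i).card ≤ r'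
        · exact Or.inl ⟨hi, h7, h8⟩
        · exact Or.inr (Or.inr ⟨hi, by omega⟩)
    have h7 : (Y.filter fun i => ∃ g ∈ B, C.Reads g i).card ≤ κ * B.card := by
      refine (C.card_readBy B Y _ (fun i _ h => h)).trans ?_
      calc ∑ g ∈ B, C.vars g ≤ ∑ _g ∈ B, κ :=
            Finset.sum_le_sum (fun g _ => le_trans (Nat.le_add_right _ _) (hκ g))
        _ = κ * B.card := by rw [Finset.sum_const, smul_eq_mul, mul_comm]
    have h8 : (Y.filter fun i => r' < (T i).card).card * (r' + 1) ≤ R := by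
      calc _ = ∑ _i ∈ Y.filter (fun i => r' < (T i).card), (r' + 1) := by
            rw [Finset.sum_const, smul_eq_mul]
        _ ≤ ∑ i ∈ Y.filter (fun i => r' < (T i).card), (T i).card :=
            Finset.sum_le_sum (fun i hi => (mem_filter.1 hi).2)
        _ ≤ R := hTs _
    have h9 : 4 * (Y.filter fun i => r' < (T i).card).card ≤ M := by
      have h10 : (r' + 1) * (4 * (Y.filter fun i => r' < (T i).card).card) ≤ (r' + 1) * M := by
        calc _ = 4 * ((Y.filter fun i => r' < (T i).card).card * (r' + 1)) := by ring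
          _ ≤ 4 * R := Nat.mul_le_mul_left _ h8
          _ ≤ _ := hr'
      exact Nat.le_of_mul_le_mul_left h10 (Nat.succ_pos _)
    have h10 := (card_le_card h6).trans ((card_union_le _ _).trans
      (Nat.add_le_add_left (card_union_le _ _) _))
    omega
  have hX1' := hGc X1 hX1
  have hX2' := hGc X2 hX2
  have hGm : ∀ Y i, i ∈ G Y → i ∈ Y ∧ (¬ ∃ g ∈ B, C.Reads g i) ∧ (T i).card ≤ r' := by
    intro Y i hi
    rw [hG, mem_filter] at hi
    exact hi
  have hprod : M * M ≤ 4 * ((G X1).card * (G X2).card) := by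
    calc M * M ≤ (2 * (G X1).card) * (2 * (G X2).card) := Nat.mul_le_mul hX1' hX2'
      _ = _ := by ring
  obtain ⟨J, hJ⟩ := sides (r := r') (w := w) (R := R) (G X1) (G X2) T
    (fun x hx => (hGm _ _ hx).2.2) (fun x hx => (hGm _ _ hx).2.2)
    (by
      intro j
      refine le_trans ?_ (h5 j.1)
      apply C.card_readBy
      intro i _ hi
      obtain ⟨g, hg1, hg2, hg3⟩ := (hTm i j).1 hi
      exact ⟨g, mem_filter.2 ⟨mem_univ _, hg1, hg2⟩, hg3⟩)
    (hTs _) (by omega)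
  obtain ⟨A, hA⟩ : ∃ A, A = (G X1).filter fun x => T x ⊆ J := ⟨_, rfl⟩
  obtain ⟨E, hE⟩ : ∃ E, E = (G X2).filter fun x => Disjoint (T x) J := ⟨_, rfl⟩
  rw [← hA, ← hE] at hJ
  have hAc : A.card ≤ (G X1).card := by rw [hA]; exact card_filter_le _ _
  have hEc : E.card ≤ (G X2).card := by rw [hE]; exact card_filter_le _ _
  have hAm : ∀ i, i ∈ A ↔ i ∈ G X1 ∧ T i ⊆ J := by intro i; rw [hA, mem_filter]
  have hEm : ∀ i, i ∈ E ↔ i ∈ G X2 ∧ Disjoint (T i) J := by intro i; rw [hE, mem_filter]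
  have hG1 : 0 < (G X1).card := by omega
  have hG2 : 0 < (G X2).card := by omega
  refine ⟨B, A, E, part, fun j => ∃ h : j < s, (⟨j, h⟩ : Fin s) ∈ J,
    fun i hi => (hGm _ _ ((hAm i).1 hi).1).1,
    fun i hi => (hGm _ _ ((hEm i).1 hi).1).1, ?_, ?_, ?_, ?_, ?_, ?_, ?_⟩
  · have h6 : (G X1).card ≤ 2 * (4 ^ r' * A.card) := by
      have h7 : (G X2).card * (G X1).card ≤ (G X2).card * (2 * (4 ^ r' * A.card)) := by
        calc _ = (G X1).card * (G X2).card := by ring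
          _ ≤ 2 * (4 ^ r' * (A.card * E.card)) := hJ
          _ ≤ 2 * (4 ^ r' * (A.card * (G X2).card)) := by gcongr
          _ = _ := by ring
      exact Nat.le_of_mul_le_mul_left h7 hG2
    rw [pow_succ]
    have : 4 ^ r' * 4 * A.card = 4 * (4 ^ r' * A.card) := by ring
    omega
  · have h6 : (G X2).card ≤ 2 * (4 ^ r' * E.card) := by
      have h7 : (G X1).card * (G X2).card ≤ (G X1).card * (2 * (4 ^ r' * E.card)) := by
        calc _ ≤ 2 * (4 ^ r' * (A.card * E.card)) := hJ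
          _ ≤ 2 * (4 ^ r' * ((G X1).card * E.card)) := by gcongr
          _ = _ := by ring
      exact Nat.le_of_mul_le_mul_left h7 hG1
    rw [pow_succ]
    have : 4 ^ r' * 4 * E.card = 4 * (4 ^ r' * E.card) := by ring
    omega
  · exact (C.card_plus B κ hκ).trans (Nat.mul_le_mul_left _ h2)
  · intro h g hj hh hg
    exact h3 h g ((C.joined_skel h g).2 hj) hh hg
  · intro g hg i hi
    constructor
    · intro h
      exact (hGm _ _ ((hAm i).1 h).1).2.1 ⟨g, hg, hi⟩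
    · intro h
      exact (hGm _ _ ((hEm i).1 h).1).2.1 ⟨g, hg, hi⟩
  · rintro g hg ⟨h, hJ'⟩ i hi h'
    exact Finset.disjoint_left.1 ((hEm i).1 h').2 ((hTm i _).2 ⟨g, hg, rfl, hi⟩) hJ'
  · intro g hg hJ' i hi h'
    apply hJ'
    have h7 : part g < s := h4 g hg
    exact ⟨h7, ((hAm i).1 h').2 ((hTm i ⟨part g, h7⟩).2 ⟨g, hg, rfl, hi⟩)⟩


end Pool.Agent.Q230.RW
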