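import Pool.Agent.Q230.RW.Pw
import Pool.Agent.Q230.RW.Wires
import Pool.Agent.Y631.WcTri
import Pool.Agent.Y631.WcNum

set_option autoImplicit false

/-!
# The bound for programs with real numbers as words
-/

open Finset

namespace Pool.Agent.Q230.RW

open Pool.Agent.Y631.Wc

namespace RCirc

variable {P ι : Type} {w : ℕ} (C : RCirc P ι w)

/-- The program for a fixed parameter as a word circuit. -/
def toW (p : P) : WCirc ι ℝ (Fin w → ℝ) where
  size := C.size
  vars := C.vars
  gates := C.gates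
  vsrc := C.vsrc
  gsrc := C.gsrc
  rel := fun g u v z => z = C.val p g u v
  out := C.out
  acc := fun z => z ∈ C.acc p
  acyclic := C.acyclic

/-- The wires of the program. -/
def toW0 : WCirc ι Unit Unit where
  size := C.size
  vars := C.vars
  gates := C.gates
  vsrc := C.vsrc
  gsrc := C.gsrc
  rel := fun _ _ _ _ => True
  out := C.out
  acc := fun _ => True
  acyclic := C.acyclic

theorem accepts_toW (p : P) (x : ι → ℝ) : (C.toW p).Accepts x ↔ C.Accepts p x := Iff.rfl

/-- The values of the gates are piecewise continuous. -/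
theorem pw_run (hpw : C.Piecewise) (p : P) {k : ℕ} (x : (Fin k → ℝ) → ι → ℝ)
    (hx : ∀ i, PwCont fun a => x a i) (v : (Fin k → ℝ) → Fin C.size → Fin w → ℝ)
    (hv : ∀ a, C.Run p (x a) (v a)) (g : Fin C.size) : PwCont fun a => v a g := by
  have key : ∀ n : ℕ, ∀ g : Fin C.size, g.1 = n → PwCont fun a => v a g := by
    intro n
    induction n using Nat.strong_induction_on with
    | _ n ih =>
      intro g hg
      have h1 : (fun a => v a g) = fun a =>
          (fun u : (Fin (C.vars g) → ℝ) × (Fin (C.gates g) → Fin w → ℝ) => C.val p g u.1 u.2)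
            ((fun j => x a (C.vsrc g j)), (fun j => v a (C.gsrc g j))) := by
        funext a
        exact hv a g
      rw [h1]
      refine (hpw p g).comp (PwCont.prodMk (PwCont.pi fun j => hx _) (PwCont.pi fun j => ?_))
      exact ih _ (by have := C.acyclic g j; rw [Fin.lt_def] at this; omega) _ rfl
  exact key g.1 g rfl

/-- **The bound.** -/
theorem real_bound [DecidableEq ι] (hpw : C.Piecewise) {κ θ M m r K k : ℕ} (hr : 1 ≤ r)
    (hκ : C.FanIn κ) (hθ : C.TreewidthLE θ) (hR : C.reads ≤ r * m) (X1 X2 : Finset ι)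
    (hX : Disjoint X1 X2) (hX1 : X1.card = M) (hX2 : X2.card = M) (hm : m ≤ 3 * M)
    (hM : 24 * r ≤ M) (hK : K = 10000 * r ^ 2 * (κ + 1) * (θ + 1)) (hk : 4 ^ (12 * r) * k ≤ M)
    (F Good : P → (ι → ℝ) → Prop) (hC : ∀ p x, Good p x → (C.Accepts p x ↔ F p x))
    (hinst : ∀ A ⊆ X1, ∀ E ⊆ X2, k ≤ A.card → k ≤ E.card →
      ∃ (p : P) (inst : (Fin k → ℝ) → (Fin k → ℝ) → ι → ℝ),
        (∀ a b b' i, i ∉ E → inst a b i = inst a b' i) ∧
        (∀ a a' b i, i ∉ A → inst a b i = inst a' b i) ∧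
        (∀ i, PwCont fun a => inst a a i) ∧ (∀ a b, Good p (inst a b)) ∧
        (∀ a, F p (inst a a)) ∧ ∀ a b, F p (inst a b) → F p (inst b a) → a = b) : k ≤ K * max w 1 := by
  classical
  have h4pos : 0 < 4 ^ (12 * r) := Nat.pow_pos (by norm_num)
  obtain ⟨W, hW⟩ : ∃ W, W = M / (24 * r) := ⟨_, rfl⟩
  have h12 : 12 * r - 1 + 1 = 12 * r := by omega
  obtain ⟨s, hs, h⟩ := sides_wires C.toW0 (M := M) (R := r * m) (w := W) (r' := 12 * r - 1)
    hκ hθ hR X1 X2 hX1 hX2
    (by
      rw [h12]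
      calc 4 * (r * m) ≤ 4 * (r * (3 * M)) := by gcongr
        _ = _ := by ring)
    (by
      have h1 : W * (24 * r) ≤ M := by rw [hW]; exact Nat.div_mul_le_self _ _
      calc 8 * (W * (r * m)) ≤ 8 * (W * (r * (3 * M))) := by gcongr
        _ = W * (24 * r) * M := by ring
        _ ≤ M * M := Nat.mul_le_mul_right _ h1)
    (by omega)
  obtain ⟨h1, h2⟩ := WCirc.arith (κ := κ) (θ := θ) hr hm hM hW hs
  rw [← hK] at h1 h2
  rw [h12] at h
  rcases h with h | ⟨B, A, E, part, J, hA, hE, hAc, hEc, hB, w1, w2, w3, w4⟩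
  · have h5 : 1 * k ≤ 4 ^ (12 * r) * k := Nat.mul_le_mul_right _ h4pos
    have h6 : K * 1 ≤ K * max w 1 := Nat.mul_le_mul_left _ (le_max_right _ _)
    omega
  · have hkA : k ≤ A.card := Nat.le_of_mul_le_mul_left (hk.trans hAc) h4pos
    have hkE : k ≤ E.card := Nat.le_of_mul_le_mul_left (hk.trans hEc) h4pos
    obtain ⟨p, inst, hi1, hi2, hi3, hgood, hF1, hF2⟩ := hinst A hA E hE hkA hkE
    have hAE : Disjoint A E := Finset.disjoint_of_subset_left hA
      (Finset.disjoint_of_subset_right hE hX)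
    have hrun : ∀ a, ∃ v, C.Run p (inst a a) v ∧ v C.out ∈ C.acc p := fun a =>
      (hC p _ (hgood a a)).2 (hF1 a)
    choose v hv ho using hrun
    have hpl : (C.toW p).plus B = C.toW0.plus B := rfl
    obtain ⟨e⟩ : Nonempty ({g // g ∈ (C.toW p).plus B} ≃ Fin ((C.toW p).plus B).card) :=
      ⟨Finset.equivFin _⟩
    have hcard : ((C.toW p).plus B).card ≤ K := by
      rw [hpl]
      exact hB.trans h2
    refine le_trans ?_ (Nat.mul_le_mul hcard (le_max_left w 1))
    refine PwCont.le_of_injective (Φ := fun a j => v a (e.symm (finProdFinEquiv.symm j).1).1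
      (finProdFinEquiv.symm j).2) (PwCont.pi fun j => ?_) ?_
    · exact (PwCont.of_continuous (continuous_apply (finProdFinEquiv.symm j).2)).comp
        (C.pw_run hpw p (fun a => inst a a) hi3 v hv _)
    · intro a b hab
      obtain ⟨c, hc⟩ : ∃ c : {g // g ∈ (C.toW p).plus B} → Fin w → ℝ, c = fun g => v a g.1 :=
        ⟨_, rfl⟩
      have hcb : c = fun g => v b g.1 := by
        rw [hc]
        funext g l
        have := congrFun hab (finProdFinEquiv (e g, l))
        simpa using this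
      have ha : inst a a ∈ (C.toW p).Cls B c := ⟨v a, hv a, ho a, fun g => by rw [hc]⟩
      have hb : inst b b ∈ (C.toW p).Cls B c := ⟨v b, hv b, ho b, fun g => by rw [hcb]⟩
      have mix : ∀ x x' y, x ∈ (C.toW p).Cls B c → x' ∈ (C.toW p).Cls B c →
          (∀ i, i ∉ (A : Set ι) → i ∉ (E : Set ι) → x i = x' i) →
          (∀ i, i ∈ (A : Set ι) → y i = x i) → (∀ i, i ∉ (A : Set ι) → y i = x' i) →
          y ∈ (C.toW p).Cls B c := fun x x' y hx hx' e1 e2 e3 =>
        (C.toW p).mixing (B := B) (part := part) w1 J (A : Set ι) (E : Set ι) w2 w3 w4 hx hx'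
          e1 e2 e3
      have hnotE : ∀ i, i ∈ (A : Set ι) → i ∉ E := fun i hi =>
        Finset.disjoint_left.1 hAE (by simpa using hi)
      have hab' : inst a b ∈ (C.toW p).Cls B c := by
        refine mix _ _ _ ha hb (fun i hi hi' => ?_) (fun i hi => ?_) (fun i hi => ?_)
        · rw [hi1 a a b i (by simpa using hi'), hi2 a b b i (by simpa using hi)]
        · exact hi1 a b a i (hnotE i hi)
        · exact hi2 a b b i (by simpa using hi)
      have hba' : inst b a ∈ (C.toW p).Cls B c := by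
        refine mix _ _ _ hb ha (fun i hi hi' => ?_) (fun i hi => ?_) (fun i hi => ?_)
        · rw [hi1 b b a i (by simpa using hi'), hi2 b a a i (by simpa using hi)]
        · exact hi1 b a b i (hnotE i hi)
        · exact hi2 b a a i (by simpa using hi)
      obtain ⟨v1, hv1, ho1, -⟩ := hab'
      obtain ⟨v2, hv2, ho2, -⟩ := hba'
      exact hF2 a b ((hC p _ (hgood a b)).1 ⟨v1, hv1, ho1⟩)
        ((hC p _ (hgood b a)).1 ⟨v2, hv2, ho2⟩)

end RCirc

end Pool.Agent.Q230.RW
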