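import Pool.Agent.Q230.RW.Pw

set_option autoImplicit false

/-!
# Examples of piecewise continuous functions
-/

namespace Pool.Agent.Q230.RW

open Set

/-- Continuity on an open set and on its complement. -/
theorem PwCont.of_open {X Y : Type*} [PseudoMetricSpace X] [TopologicalSpace Y] {f : X → Y}
    {U : Set X} (hU : IsOpen U) (h1 : ContinuousOn f U) (h2 : ContinuousOn f Uᶜ) : PwCont f := by
  obtain ⟨F, hF1, hF2, hF3, -⟩ := hU.exists_iUnion_isClosed
  refine ⟨insert Uᶜ (range F), (countable_range F).insert _, ?_, ?_⟩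
  · rw [sUnion_insert, sUnion_range, hF3, compl_union_self]
  · rintro G (rfl | ⟨n, rfl⟩)
    · exact ⟨hU.isClosed_compl, h2⟩
    · exact ⟨hF1 n, h1.mono (hF2 n)⟩

/-- The operations of exact real arithmetic and some others are piecewise continuous (with the
conventions `x / 0 = 0`, `√ x = 0` for `x < 0`, `log x = log |x|` and `log 0 = 0`). -/
theorem PwCont.examples :
    PwCont (fun p : ℝ × ℝ => p.1 + p.2) ∧ PwCont (fun p : ℝ × ℝ => p.1 - p.2) ∧
    PwCont (fun p : ℝ × ℝ => p.1 * p.2) ∧ PwCont (fun p : ℝ × ℝ => p.1 / p.2) ∧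
    PwCont (fun p : ℝ × ℝ => if p.1 ≤ p.2 then (1 : ℝ) else 0) ∧
    PwCont (fun p : ℝ × ℝ => if p.1 = p.2 then (1 : ℝ) else 0) ∧
    PwCont (fun x : ℝ => (⌊x⌋ : ℝ)) ∧ PwCont Real.sqrt ∧ PwCont Real.exp ∧ PwCont Real.log ∧
    PwCont Real.sin := by
  refine ⟨.of_continuous (by fun_prop), .of_continuous (by fun_prop), .of_continuous (by fun_prop),
    ?_, ?_, ?_, ?_, .of_continuous (by fun_prop), .of_continuous (by fun_prop), ?_,
    .of_continuous (by fun_prop)⟩
  · refine PwCont.of_open (U := {p : ℝ × ℝ | p.2 ≠ 0})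
      (isOpen_ne_fun continuous_snd continuous_const) ?_ ?_
    · exact continuousOn_fst.div continuousOn_snd (fun p hp => hp)
    · refine (continuousOn_const (c := (0 : ℝ))).congr (fun p hp => ?_)
      have : p.2 = 0 := by simpa using hp
      simp [this]
  · refine PwCont.of_open (U := {p : ℝ × ℝ | p.2 < p.1})
      (isOpen_lt continuous_snd continuous_fst) ?_ ?_
    · refine (continuousOn_const (c := (0 : ℝ))).congr (fun p hp => ?_)
      exact if_neg (not_le.2 hp)
    · refine (continuousOn_const (c := (1 : ℝ))).congr (fun p hp => ?_)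
      have : p.1 ≤ p.2 := by simpa using hp
      exact if_pos this
  · refine PwCont.of_open (U := {p : ℝ × ℝ | p.1 ≠ p.2})
      (isOpen_ne_fun continuous_fst continuous_snd) ?_ ?_
    · refine (continuousOn_const (c := (0 : ℝ))).congr (fun p hp => ?_)
      exact if_neg hp
    · refine (continuousOn_const (c := (1 : ℝ))).congr (fun p hp => ?_)
      have : p.1 = p.2 := by simpa using hp
      exact if_pos this
  · refine PwCont.of_open (U := (range ((↑) : ℤ → ℝ))ᶜ)
      Int.isClosedEmbedding_coe_real.isClosed_range.isOpen_compl ?_ ?_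
    · intro x hx
      apply ContinuousAt.continuousWithinAt
      have h1 : (⌊x⌋ : ℝ) < x := by
        refine lt_of_le_of_ne (Int.floor_le x) (fun h => hx ⟨_, h⟩)
      have h2 : x < (⌊x⌋ : ℝ) + 1 := Int.lt_floor_add_one x
      have h3 : (fun y : ℝ => (⌊y⌋ : ℝ)) =ᶠ[nhds x] fun _ => (⌊x⌋ : ℝ) := by
        filter_upwards [Ioo_mem_nhds h1 h2] with y hy
        rw [Int.floor_eq_iff.2 ⟨hy.1.le, hy.2⟩]
      exact continuousAt_const.congr h3.symm
    · rw [compl_compl]
      refine continuousOn_id.congr (fun x hx => ?_)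
      obtain ⟨n, rfl⟩ := hx
      simp
  · refine PwCont.of_open (U := {x : ℝ | x ≠ 0}) isOpen_ne ?_ ?_
    · exact continuousOn_id.log (fun x hx => hx)
    · refine (continuousOn_const (c := (0 : ℝ))).congr (fun x hx => ?_)
      have : x = 0 := by simpa using hx
      simp [this]

end Pool.Agent.Q230.RW
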