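import Pool.Agent.Q230.RW.Bound

set_option autoImplicit false

/-!
# Linear feasibility by programs with real numbers as words
-/

open Finset Matrix

namespace Pool.Agent.Q230.RW

open Pool.Agent.Y631.Wc

/-- Each row of the matrix is zero or a unit vector or its negative, so that each inequality of
`A x ≥ b` is a bound for one variable (or has no variables). -/
def Simple {m n : ℕ} (A : Matrix (Fin m) (Fin n) ℝ) : Prop :=
  ∀ i, A i = 0 ∨ ∃ j, A i = Pi.single j 1 ∨ A i = -Pi.single j 1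

/-- The row at a place. -/
def row {n k : ℕ} (col : Fin k → Fin n) : Option (Fin k ⊕ Fin k ⊕ Fin k) → Fin n → ℝ
  | none => 0
  | some (Sum.inl j) => Pi.single (col j) 1
  | some (Sum.inr (Sum.inl j)) => -Pi.single (col j) 1
  | some (Sum.inr (Sum.inr _)) => 0

/-- The right-hand side at a place. -/
def rhs {k : ℕ} (a b : Fin k → ℝ) : Option (Fin k ⊕ Fin k ⊕ Fin k) → ℝ
  | none => 0
  | some (Sum.inl j) => a j
  | some (Sum.inr (Sum.inl j)) => -b j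
  | some (Sum.inr (Sum.inr _)) => 0

theorem feasible_iff {m n k : ℕ} (hk : k ≤ n) (σ : Fin m → Option (Fin k ⊕ Fin k ⊕ Fin k))
    (hσ : ∀ p, ∃ i, σ i = some p) (a b : Fin k → ℝ) :
    (∃ x : Fin n → ℝ, (fun i => rhs a b (σ i)) ≤
      (Matrix.of fun i => row (fun j => Fin.castLE hk j) (σ i)) *ᵥ x) ↔ ∀ j, a j ≤ b j := by
  have hrow : ∀ (x : Fin n → ℝ) i, ((Matrix.of fun i => row (fun j => Fin.castLE hk j) (σ i)) *ᵥ x) i =
      row (fun j => Fin.castLE hk j) (σ i) ⬝ᵥ x := fun x i => rfl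
  constructor
  · rintro ⟨x, hx⟩ j
    obtain ⟨i, hi⟩ := hσ (Sum.inl j)
    obtain ⟨i', hi'⟩ := hσ (Sum.inr (Sum.inl j))
    have h1 : rhs a b (σ i) ≤ _ := hx i
    have h2 : rhs a b (σ i') ≤ _ := hx i'
    rw [hrow, hi] at h1
    rw [hrow, hi'] at h2
    simp only [rhs, row, single_one_dotProduct, neg_dotProduct] at h1 h2
    linarith
  · intro h
    refine ⟨fun l => if h : l.1 < k then a ⟨l.1, h⟩ else 0, fun i => ?_⟩
    rw [hrow]
    show rhs a b (σ i) ≤ _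
    rcases hi : σ i with _ | (j | j | j)
    · simp [rhs, row]
    · simp [rhs, row]
    · simp [rhs, row, h j]
    · simp [rhs, row]

theorem simple_row {m n k : ℕ} (σ : Fin m → Option (Fin k ⊕ Fin k ⊕ Fin k)) (col : Fin k → Fin n) :
    Simple (Matrix.of fun i => row col (σ i)) := by
  intro i
  show row col (σ i) = 0 ∨ _
  rcases hi : σ i with _ | (j | j | j)
  · exact Or.inl rfl
  · refine Or.inr ⟨col j, Or.inl ?_⟩
    show row col (σ i) = _
    rw [hi]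
    rfl
  · refine Or.inr ⟨col j, Or.inr ?_⟩
    show row col (σ i) = _
    rw [hi]
    rfl
  · exact Or.inl rfl

/-- **Linear feasibility.** -/
theorem lp_bound {m n r κ θ w : ℕ} (hr : 1 ≤ r)
    (C : RCirc (Matrix (Fin m) (Fin n) ℝ) (Fin m) w) (hpw : C.Piecewise) (hκ : C.FanIn κ)
    (hθ : C.TreewidthLE θ) (hR : C.reads ≤ r * m)
    (hC : ∀ A b, Simple A → (C.Accepts A b ↔ ∃ x, b ≤ A *ᵥ x)) :
    min n (m / 2 ^ (24 * r + 1)) ≤ 10000 * r ^ 2 * (κ + 1) * (θ + 1) * max w 1 := by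
  classical
  obtain ⟨k, hk⟩ : ∃ k, k = m / 2 ^ (24 * r + 1) := ⟨_, rfl⟩
  rw [← hk]
  by_cases hk0 : k = 0
  · rw [hk0, Nat.min_zero]
    exact Nat.zero_le _
  obtain ⟨h1, h2, h3, h4⟩ := numbers hr hk hk0
  obtain ⟨X1, X2, hX, hX1, hX2⟩ := halves m
  obtain ⟨l, hl⟩ : ∃ l, l = min n k := ⟨_, rfl⟩
  rw [← hl]
  have hlk : l ≤ k := by omega
  have hln : l ≤ n := by omega
  refine C.real_bound hpw hr hκ hθ hR X1 X2 hX hX1 hX2 h1 h2 rfl
    ((Nat.mul_le_mul_left _ hlk).trans h3) (fun A b => ∃ x, b ≤ A *ᵥ x) (fun A _ => Simple A)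
    (fun A b hA => hC A b hA) (fun A hA E hE hkA hkE => ?_)
  obtain ⟨σ, s1, s2, s3, s4⟩ := places X1 X2 A E hX hA hE hkA hkE (by omega)
  refine ⟨Matrix.of fun i => row (fun j => Fin.castLE hln j) (σ i), fun a b i => rhs a b (σ i),
    ?_, ?_, ?_, ?_, ?_, ?_⟩
  · intro a b b' i hi
    show rhs a b (σ i) = rhs a b' (σ i)
    rcases h : σ i with _ | (j | j | j)
    · rfl
    · rfl
    · exact absurd (s2 i j h) hi
    · rfl
  · intro a a' b i hi
    show rhs a b (σ i) = rhs a' b (σ i)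
    rcases h : σ i with _ | (j | j | j)
    · rfl
    · exact absurd (s1 i j h) hi
    · rfl
    · rfl
  · intro i
    apply PwCont.of_continuous
    show Continuous fun a : Fin l → ℝ => rhs a a (σ i)
    rcases h : σ i with _ | (j | j | j)
    · exact continuous_const
    · exact continuous_apply j
    · exact (continuous_apply j).neg
    · exact continuous_const
  · intro a b
    exact simple_row σ _
  · intro a
    exact (feasible_iff hln σ s3 a a).2 (fun j => le_rfl)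
  · intro a b hab hba
    funext j
    exact le_antisymm ((feasible_iff hln σ s3 a b).1 hab j) ((feasible_iff hln σ s3 b a).1 hba j)

theorem lp_superlinear (κ : ℕ) (ε : ℝ) (hε : 0 < ε) (hε1 : ε ≤ 1) : ∃ m₀ : ℕ,
    ∀ m ≥ m₀, ∀ n, m / 2 ^ 25 ≤ n → ∀ w θ : ℕ, 1 ≤ w →
      (((θ + 1) * w : ℕ) : ℝ) ≤ (m : ℝ) ^ (1 - ε) →
      ∀ C : RCirc (Matrix (Fin m) (Fin n) ℝ) (Fin m) w, C.Piecewise → C.FanIn κ →
        C.TreewidthLE θ → (∀ A b, Simple A → (C.Accepts A b ↔ ∃ x, b ≤ A *ᵥ x)) →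
        ε / 30 * (m * Real.logb 2 m) ≤ C.reads := by
  obtain ⟨m₀, h2, hm₀⟩ := numeric 1 κ ε hε hε1
  refine ⟨m₀, fun m hm n hn w θ hw hθw C hpw hκ hθ hC => ?_⟩
  by_contra hcon
  push Not at hcon
  obtain ⟨r, hr1, hr2, hr3⟩ := choose_r hε (by omega) hcon
  have h3 := lp_bound hr1 C hpw hκ hθ hr2 hC
  have h4 := hm₀ m hm r ((θ + 1) * w) hr3 hθw
  have h5 : m / 2 ^ (24 * r + 1) ≤ m / 2 ^ 25 :=
    Nat.div_le_div_left (Nat.pow_le_pow_right (by norm_num) (by omega)) (by positivity)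
  rw [min_eq_right (h5.trans hn), max_eq_left hw] at h3
  have h6 : 10000 * r ^ 2 * (κ + 1) * (θ + 1) * w ≤
      10000 * r ^ 2 * (κ + 1) * ((θ + 1) * w + 1) := by
    calc 10000 * r ^ 2 * (κ + 1) * (θ + 1) * w = 10000 * r ^ 2 * (κ + 1) * ((θ + 1) * w) := by
          ring
      _ ≤ _ := Nat.mul_le_mul_left _ (Nat.le_succ _)
  omega

theorem lp_random (κ : ℕ) (ε : ℝ) (hε : 0 < ε) (hε1 : ε ≤ 1) : ∃ m₀ : ℕ,
    ∀ m ≥ m₀, ∀ n, m / 2 ^ 25 ≤ n → ∀ w θ : ℕ, 1 ≤ w →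
      (((θ + 1) * w : ℕ) : ℝ) ≤ (m : ℝ) ^ (1 - ε) →
      ∀ (Ω : Type) [Fintype Ω] (p : Ω → ℝ), (∀ ω, 0 ≤ p ω) → ∑ ω, p ω = 1 →
      ∀ C : Ω → RCirc (Matrix (Fin m) (Fin n) ℝ) (Fin m) w,
        (∀ ω, (C ω).Piecewise ∧ (C ω).FanIn κ ∧ (C ω).TreewidthLE θ ∧
          ∀ A b, Simple A → ((C ω).Accepts A b ↔ ∃ x, b ≤ A *ᵥ x)) →
        ε / 30 * (m * Real.logb 2 m) ≤ ∑ ω, p ω * (C ω).reads := by
  obtain ⟨m₀, hm₀⟩ := lp_superlinear κ ε hε hε1
  refine ⟨m₀, fun m hm n hn w θ hw hθw Ω _ p hp hp1 C h => ?_⟩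
  calc ε / 30 * (m * Real.logb 2 m) = ∑ ω, p ω * (ε / 30 * (m * Real.logb 2 m)) := by
        rw [← Finset.sum_mul, hp1, one_mul]
    _ ≤ ∑ ω, p ω * (C ω).reads := by
        apply Finset.sum_le_sum
        intro ω _
        apply mul_le_mul_of_nonneg_left _ (hp ω)
        obtain ⟨h1, h2, h3, h4⟩ := h ω
        exact hm₀ m hm n hn w θ hw hθw (C ω) h1 h2 h3 h4

end Pool.Agent.Q230.RW
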