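import Mathlib

set_option autoImplicit false

/-!
# Straight-line programs with real numbers as words

Definitions only.
-/

open Finset

namespace Pool.Agent.Q230.RW

/-- A function between topological spaces which is *piecewise continuous*: the space is covered by
countably many closed sets, and on each of them the function is continuous. -/
def PwCont {X Y : Type*} [TopologicalSpace X] [TopologicalSpace Y] (f : X → Y) : Prop :=
  ∃ S : Set (Set X), S.Countable ∧ ⋃₀ S = Set.univ ∧ ∀ F ∈ S, IsClosed F ∧ ContinuousOn f F

/-- A program for inputs which consist of a parameter in `P` and real variables, numbered by `ι`.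
Each gate holds a word, which consists of `w` real numbers. The gate `g` gets the values of the
variables `vsrc g a` and of the earlier gates `gsrc g a`; if these values are `u` and `v` and the
parameter is `p`, it computes the word `val p g u v`. So the parameter may be used freely by all gates,
but the wires do not depend on it. The program accepts if the output gate `out` has a value in
`acc p`. -/
structure RCirc (P ι : Type) (w : ℕ) where
  /-- the number of gates -/
  size : ℕ
  /-- the number of wires from variables to the gate -/
  vars : Fin size → ℕ
  /-- the number of wires from gates to the gate -/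
  gates : Fin size → ℕ
  /-- the variables read by the gate -/
  vsrc : (g : Fin size) → Fin (vars g) → ι
  /-- the gates read by the gate -/
  gsrc : (g : Fin size) → Fin (gates g) → Fin size
  /-- the function computed by the gate -/
  val : P → (g : Fin size) → (Fin (vars g) → ℝ) → (Fin (gates g) → Fin w → ℝ) → Fin w → ℝ
  /-- the output gate -/
  out : Fin size
  /-- the accepting values of the output gate -/
  acc : P → Set (Fin w → ℝ)
  acyclic : ∀ g a, gsrc g a < g

namespace RCirc

variable {P ι : Type} {w : ℕ} (C : RCirc P ι w)

/-- `v` are the values of the gates for the parameter `p` and the variables `x`. -/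
def Run (p : P) (x : ι → ℝ) (v : Fin C.size → Fin w → ℝ) : Prop :=
  ∀ g, v g = C.val p g (fun a => x (C.vsrc g a)) (fun a => v (C.gsrc g a))

/-- The program accepts the parameter `p` and the variables `x`. -/
def Accepts (p : P) (x : ι → ℝ) : Prop := ∃ v, C.Run p x v ∧ v C.out ∈ C.acc p

/-- The gates compute piecewise continuous functions. -/
def Piecewise : Prop := ∀ p g,
  PwCont fun u : (Fin (C.vars g) → ℝ) × (Fin (C.gates g) → Fin w → ℝ) => C.val p g u.1 u.2

/-- The number of the wires from variables to gates. -/
def reads : ℕ := ∑ g, C.vars g

/-- Each gate has at most `κ` wires. -/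
def FanIn (κ : ℕ) : Prop := ∀ g, C.vars g + C.gates g ≤ κ

/-- There is a wire from the gate `h` to the gate `g`. -/
def Joined (h g : Fin C.size) : Prop := ∃ a, C.gsrc g a = h

/-- The graph of the gates (the variables are deleted) has a tree decomposition of width at most
`t`. The tree is rooted at the node `0` and given by the parent function `par`, where `par i < i`;
the nodes whose bags contain a given gate form a nonempty subtree, that is, exactly one of them is
the root or has a parent whose bag does not contain the gate. -/
def TreewidthLE (t : ℕ) : Prop :=
  ∃ (T : ℕ) (par : Fin (T + 1) → Fin (T + 1)) (bag : Fin (T + 1) → Finset (Fin C.size)),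
    (∀ i, 0 < i → par i < i) ∧ (∀ i, (bag i).card ≤ t + 1) ∧
    (∀ v, ∃! i, v ∈ bag i ∧ (i = 0 ∨ v ∉ bag (par i))) ∧
    (∀ h g, C.Joined h g → ∃ i, h ∈ bag i ∧ g ∈ bag i)

end RCirc

end Pool.Agent.Q230.RW
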