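import Pool.Agent.Q230.RW.Model
import Pool.Agent.H370R3.SphereTools

set_option autoImplicit false

/-!
# Piecewise continuous functions
-/

namespace Pool.Agent.Q230.RW

open Set

theorem PwCont.of_continuous {X Y : Type*} [TopologicalSpace X] [TopologicalSpace Y] {f : X → Y}
    (hf : Continuous f) : PwCont f :=
  ⟨{univ}, countable_singleton _, by simp, fun F hF => by
    rw [mem_singleton_iff.1 hF]
    exact ⟨isClosed_univ, hf.continuousOn⟩⟩

theorem PwCont.comp {X Y Z : Type*} [TopologicalSpace X] [TopologicalSpace Y]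
    [TopologicalSpace Z] {g : Y → Z} {f : X → Y} (hg : PwCont g) (hf : PwCont f) :
    PwCont (fun x => g (f x)) := by
  obtain ⟨S, hS, hSU, hSF⟩ := hf
  obtain ⟨T, hT, hTU, hTF⟩ := hg
  refine ⟨(fun p : Set X × Set Y => p.1 ∩ f ⁻¹' p.2) '' (S ×ˢ T), (hS.prod hT).image _, ?_, ?_⟩
  · rw [eq_univ_iff_forall]
    intro x
    have h1 : x ∈ ⋃₀ S := by rw [hSU]; trivial
    have h2 : f x ∈ ⋃₀ T := by rw [hTU]; trivial
    obtain ⟨F, hF, hxF⟩ := h1
    obtain ⟨G, hG, hxG⟩ := h2
    exact ⟨F ∩ f ⁻¹' G, ⟨(F, G), ⟨hF, hG⟩, rfl⟩, hxF, hxG⟩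
  · rintro _ ⟨⟨F, G⟩, ⟨hF, hG⟩, rfl⟩
    have h1 := hSF F hF
    have h2 := hTF G hG
    refine ⟨h1.2.preimage_isClosed_of_isClosed h1.1 h2.1, ?_⟩
    exact h2.2.comp (h1.2.mono inter_subset_left) (fun x hx => hx.2)

theorem PwCont.pi {X : Type*} [TopologicalSpace X] {ι : Type*} [Finite ι] {Y : ι → Type*}
    [∀ i, TopologicalSpace (Y i)] {f : X → ∀ i, Y i} (hf : ∀ i, PwCont (fun x => f x i)) :
    PwCont f := by
  choose S hS hSU hSF using hf
  refine ⟨(fun p : ι → Set X => ⋂ i, p i) '' {p | ∀ i, p i ∈ S i}, ?_, ?_, ?_⟩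
  · exact (Set.countable_pi hS).image _
  · rw [eq_univ_iff_forall]
    intro x
    have h1 : ∀ i, ∃ F ∈ S i, x ∈ F := by
      intro i
      have : x ∈ ⋃₀ S i := by rw [hSU]; trivial
      exact this
    choose F hF hxF using h1
    exact ⟨_, ⟨F, hF, rfl⟩, mem_iInter.2 hxF⟩
  · rintro _ ⟨F, hF, rfl⟩
    refine ⟨isClosed_iInter (fun i => (hSF i _ (hF i)).1), continuousOn_pi.2 (fun i => ?_)⟩
    exact (hSF i _ (hF i)).2.mono (iInter_subset _ _)

theorem PwCont.prodMk {X Y Z : Type*} [TopologicalSpace X] [TopologicalSpace Y]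
    [TopologicalSpace Z] {f : X → Y} {g : X → Z} (hf : PwCont f) (hg : PwCont g) :
    PwCont (fun x => (f x, g x)) := by
  obtain ⟨S, hS, hSU, hSF⟩ := hf
  obtain ⟨T, hT, hTU, hTF⟩ := hg
  refine ⟨(fun p : Set X × Set X => p.1 ∩ p.2) '' (S ×ˢ T), (hS.prod hT).image _, ?_, ?_⟩
  · rw [eq_univ_iff_forall]
    intro x
    have h1 : x ∈ ⋃₀ S := by rw [hSU]; trivial
    have h2 : x ∈ ⋃₀ T := by rw [hTU]; trivial
    obtain ⟨F, hF, hxF⟩ := h1
    obtain ⟨G, hG, hxG⟩ := h2
    exact ⟨F ∩ G, ⟨(F, G), ⟨hF, hG⟩, rfl⟩, hxF, hxG⟩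
  · rintro _ ⟨⟨F, G⟩, ⟨hF, hG⟩, rfl⟩
    have h1 := hSF F hF
    have h2 := hTF G hG
    exact ⟨h1.1.inter h2.1, (h1.2.mono inter_subset_left).prodMk (h2.2.mono inter_subset_right)⟩

/-- **No piecewise continuous map to a space of smaller dimension is injective.** -/
theorem PwCont.le_of_injective {k K : ℕ} {Φ : (Fin k → ℝ) → (Fin K → ℝ)} (hΦ : PwCont Φ)
    (hinj : Function.Injective Φ) : k ≤ K := by
  by_contra hcon
  push Not at hcon
  obtain ⟨n, rfl⟩ : ∃ n, k = n + 1 := ⟨k - 1, by omega⟩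
  obtain ⟨S, hS, hSU, hSF⟩ := hΦ
  have hSc := hS.to_subtype
  obtain ⟨⟨F, hF⟩, x₀, hx₀⟩ := nonempty_interior_of_iUnion_of_closed (f := fun F : S => F.1)
    (fun F => (hSF F.1 F.2).1) (by rw [← sUnion_eq_iUnion]; exact hSU)
  obtain ⟨ε, hε, hball⟩ := Metric.isOpen_iff.1 isOpen_interior x₀ hx₀
  -- a small sphere
  obtain ⟨c, hc⟩ : ∃ c : Pool.Agent.H370R3.SphereTools.Sph n → (Fin (n + 1) → ℝ),
      c = fun x => fun i => (ε / 2) * x.1 i := ⟨_, rfl⟩
  have hcc : Continuous c := by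
    rw [hc]
    exact continuous_pi fun i => continuous_const.mul
      ((continuous_apply i).comp (PiLp.continuous_ofLp 2 _ |>.comp continuous_subtype_val))
  have hcn : ∀ x, ‖c x‖ < ε := by
    intro x
    have h1 : ‖c x‖ ≤ ε / 2 := by
      rw [pi_norm_le_iff_of_nonneg (by positivity)]
      intro i
      rw [hc]
      simp only [norm_mul]
      have h2 : ‖x.1 i‖ ≤ 1 := by
        have h3 := PiLp.norm_apply_le x.1 i
        have h4 : ‖x.1‖ = 1 := by simpa using x.2
        rwa [h4] at h3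
      rw [Real.norm_of_nonneg (by positivity : 0 ≤ ε / 2)]
      nlinarith
    linarith
  have hmem : ∀ x, x₀ + c x ∈ F ∧ x₀ - c x ∈ F := by
    intro x
    constructor
    · apply interior_subset (hball _)
      rw [Metric.mem_ball, dist_eq_norm, add_sub_cancel_left]
      exact hcn x
    · apply interior_subset (hball _)
      rw [Metric.mem_ball, dist_eq_norm, sub_sub_cancel_left, norm_neg]
      exact hcn x
  obtain ⟨x, hx⟩ := Pool.Agent.H370R3.SphereTools.borsuk_ulam (n := n) (m := K) (by omega)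
    (fun x => Φ (x₀ + c x) - Φ (x₀ - c x))
    (by
      refine Continuous.sub ?_ ?_
      · exact (hSF F hF).2.comp_continuous (continuous_const.add hcc) (fun x => (hmem x).1)
      · exact (hSF F hF).2.comp_continuous (continuous_const.sub hcc) (fun x => (hmem x).2))
    (by
      intro x
      have h1 : c (-x) = - c x := by
        rw [hc]
        funext i
        simp
      rw [h1, sub_neg_eq_add, ← sub_eq_add_neg]
      simp only [neg_sub])
  have h1 := hinj (sub_eq_zero.1 hx)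
  have h2 : c x = 0 := by
    have h3 : c x + c x = 0 := by
      have h4 : x₀ + c x - (x₀ - c x) = 0 := by rw [h1, sub_self]
      rw [← h4]
      abel
    have h5 : (2 : ℝ) • c x = 0 := by rw [two_smul, h3]
    exact (smul_eq_zero.1 h5).resolve_left (by norm_num)
  have h6 : x.1 = 0 := by
    ext i
    have h7 := congrFun h2 i
    rw [hc] at h7
    simp only [Pi.zero_apply, mul_eq_zero] at h7
    rcases h7 with h7 | h7
    · linarith
    · simpa using h7
  have h8 : ‖x.1‖ = 1 := by simpa using x.2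
  rw [h6, norm_zero] at h8
  norm_num at h8

end Pool.Agent.Q230.RW
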